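import Pool.Agent.Q211.PR.Bnd1

set_option autoImplicit false

/-!
# Project PR: all weights, bounded total change
-/

open Polynomial Filter Topology Finset MeasureTheory
open Pool.Agent.H24R2.JP (XX)
open Pool.Agent.Q240.PR
open scoped FourierTransform ContDiff

namespace Pool.Agent.Q211.PR

/-- representation by cosines -/
theorem cos_rep {g : ℝ → ℝ} (hg : ∀ k : ℕ, ContDiff ℝ k g) (hs : HasCompactSupport g) :
    ∃ φ : ℝ → ℝ, Integrable φ ∧ ∀ t : ℝ, g t + g (-t) = ∫ v : ℝ, φ v * Real.cos (t * v) := by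
  set G : ℝ → ℂ := fun x => (g x : ℂ) with hG
  have hGc : ContDiff ℝ ∞ G := Complex.ofRealCLM.contDiff.comp (contDiff_infty.2 hg)
  have hGs : HasCompactSupport G := hs.comp_left (g := fun x : ℝ => (x : ℂ)) (by simp)
  set GS := hGs.toSchwartzMap hGc with hGS
  have hcoe : (GS : ℝ → ℂ) = G := rfl
  have hGi : Integrable G := hcoe ▸ GS.integrable
  have hFi : Integrable (𝓕 G) := by
    have h1 := (𝓕 GS : SchwartzMap ℝ ℂ).integrable (μ := volume)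
    rw [SchwartzMap.fourier_coe, hcoe] at h1
    exact h1
  have hinv : 𝓕⁻ (𝓕 G) = G := Continuous.fourierInv_fourier_eq hGc.continuous hGi hFi
  have hcw : ∀ t : ℝ, Integrable (fun ξ : ℝ => Complex.exp (((2 * Real.pi * (t * ξ) : ℝ) : ℂ) * Complex.I) * 𝓕 G ξ) := by
    intro t
    refine hFi.bdd_mul (c := 1) (Continuous.aestronglyMeasurable (by fun_prop)) (Eventually.of_forall fun ξ => ?_)
    rw [Complex.norm_exp_ofReal_mul_I]
  have hval : ∀ t : ℝ, g t = ∫ ξ : ℝ, (Complex.exp (((2 * Real.pi * (t * ξ) : ℝ) : ℂ) * Complex.I) * 𝓕 G ξ).re := by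
    intro t
    have h1 : G t = ∫ ξ : ℝ, Complex.exp (((2 * Real.pi * (t * ξ) : ℝ) : ℂ) * Complex.I) * 𝓕 G ξ := by
      have h2 := congrFun hinv t
      rw [Real.fourierInv_eq'] at h2
      rw [← h2]
      refine integral_congr_ae (Eventually.of_forall fun ξ => ?_)
      simp only [smul_eq_mul, RCLike.inner_apply, conj_trivial]
    have h3 : (G t).re = g t := by simp [hG]
    rw [← h3, h1]
    exact (integral_re (hcw t)).symm
  have hre : Integrable (fun ξ : ℝ => (𝓕 G ξ).re) := hFi.re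
  refine ⟨fun v => 1 / Real.pi * (𝓕 G (v * (2 * Real.pi)⁻¹)).re, ?_, fun t => ?_⟩
  · exact (hre.comp_mul_right' (by positivity)).const_mul _
  · have h1 := Measure.integral_comp_mul_left (fun v : ℝ => 1 / Real.pi * (𝓕 G (v * (2 * Real.pi)⁻¹)).re *
      Real.cos (t * v)) (2 * Real.pi)
    have h2 : ∫ v : ℝ, 1 / Real.pi * (𝓕 G (v * (2 * Real.pi)⁻¹)).re * Real.cos (t * v) =
        2 * Real.pi * ∫ x : ℝ, 1 / Real.pi * (𝓕 G (2 * Real.pi * x * (2 * Real.pi)⁻¹)).re *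
          Real.cos (t * (2 * Real.pi * x)) := by
      rw [h1, abs_of_pos (by positivity), smul_eq_mul, ← mul_assoc, mul_inv_cancel₀ (by positivity), one_mul]
    have hcr : ∀ t : ℝ, Integrable (fun ξ : ℝ => (Complex.exp (((2 * Real.pi * (t * ξ) : ℝ) : ℂ) * Complex.I) *
        𝓕 G ξ).re) := fun t => (hcw t).re
    rw [h2, hval t, hval (-t), ← integral_add (hcr t) (hcr (-t)), ← integral_const_mul]
    refine integral_congr_ae (Eventually.of_forall fun ξ => ?_)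
    have h3 : 2 * Real.pi * ξ * (2 * Real.pi)⁻¹ = ξ := by
      field_simp
    simp only [h3]
    have h4 : Complex.exp (((2 * Real.pi * (t * ξ) : ℝ) : ℂ) * Complex.I) * 𝓕 G ξ +
        Complex.exp (((2 * Real.pi * (-t * ξ) : ℝ) : ℂ) * Complex.I) * 𝓕 G ξ =
        ((2 * Real.cos (t * (2 * Real.pi * ξ)) : ℝ) : ℂ) * 𝓕 G ξ := by
      rw [← add_mul]
      congr 1
      push_cast
      rw [show (2 * (Real.pi : ℂ) * (-(t : ℂ) * ξ)) * Complex.I = -(2 * (Real.pi : ℂ) * (t * ξ)) * Complex.I by ring,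
        show (t : ℂ) * (2 * Real.pi * ξ) = 2 * Real.pi * (t * ξ) by ring, Complex.two_cos]
    show (Complex.exp (((2 * Real.pi * (t * ξ) : ℝ) : ℂ) * Complex.I) * 𝓕 G ξ).re +
        (Complex.exp (((2 * Real.pi * (-t * ξ) : ℝ) : ℂ) * Complex.I) * 𝓕 G ξ).re = _
    rw [← Complex.add_re, h4, Complex.re_ofReal_mul]
    field_simp

theorem Lx_ev {C : ℝ} {Q : ℝ × ℕ → Prop} (h : ∀ᶠ p in Lx C, Q p) :
    ∃ A : ℝ, ∀ (a : ℝ) (n : ℕ), A ≤ a → ⌈C * a * Real.exp (2 * a)⌉₊ ≤ n → Q (a, n) := by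
  unfold Lx at h
  rw [eventually_inf_principal, eventually_comap, eventually_atTop] at h
  obtain ⟨A, hA⟩ := h
  exact ⟨A, fun a n h1 h2 => hA a h1 (a, n) rfl h2⟩

/-- the multiplier -/
noncomputable def Mt (S : Finset ℝ) (η : ℝ → ℝ) (v : ℝ) : ℝ := ∑ t ∈ S, η t * Real.cos (t * v)

theorem Mt_cont (S : Finset ℝ) (η : ℝ → ℝ) : Continuous (Mt S η) := by
  unfold Mt
  fun_prop

theorem Mt_bd {S : Finset ℝ} {η : ℝ → ℝ} {B : ℝ} (hB : ∑ t ∈ S, |η t| ≤ B) (v : ℝ) : |Mt S η v| ≤ B := by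
  unfold Mt
  refine (Finset.abs_sum_le_sum_abs _ _).trans (le_trans (Finset.sum_le_sum fun t _ => ?_) hB)
  rw [abs_mul]
  exact mul_le_of_le_one_right (abs_nonneg _) (Real.abs_cos_le_one _)

theorem Mt_int {S : Finset ℝ} {η : ℝ → ℝ} {φ : ℝ → ℝ} (hφ : Integrable φ) :
    ∫ v, φ v * Mt S η v = ∑ t ∈ S, η t * ∫ v, φ v * Real.cos (t * v) := by
  have hi : ∀ t ∈ S, Integrable (fun v => η t * (φ v * Real.cos (t * v))) := fun t _ =>
    (hφ.mul_bdd (c := 1) (Continuous.aestronglyMeasurable (by fun_prop))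
      (Eventually.of_forall fun v => Real.abs_cos_le_one _)).const_mul _
  have e1 : ∀ v, φ v * Mt S η v = ∑ t ∈ S, η t * (φ v * Real.cos (t * v)) := by
    intro v
    unfold Mt
    rw [Finset.mul_sum]
    exact Finset.sum_congr rfl fun t _ => by ring
  simp only [e1]
  rw [integral_finsetSum _ hi]
  exact Finset.sum_congr rfl fun t _ => integral_const_mul _ _

/-- the family of the admissible multipliers -/
def Adm (C B t0 A : ℝ) (T : ℝ → ℝ) : Prop := ∃ (a : ℝ) (ν : ℕ∞) (S : Finset ℝ) (η : ℝ → ℝ), A ≤ a ∧ 1 ≤ a ∧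
  ((⌈C * a * Real.exp (2 * a)⌉₊ : ℕ) : ℕ∞) ≤ ν ∧ (∀ t ∈ S, t0 ≤ t) ∧ ∑ t ∈ S, |η t| ≤ B ∧ Pos a ν S η ∧ T = Mt S η

theorem adm_ok (C B t0 : ℝ) : FamOK (Adm C B t0) B where
  mono := by
    rintro A A' T hA ⟨a, ν, S, η, h1, h2, h3, h4, h5, h6, h7⟩
    exact ⟨a, ν, S, η, hA.trans h1, h2, h3, h4, h5, h6, h7⟩
  cont := by
    rintro A T ⟨a, ν, S, η, h1, h2, h3, h4, h5, h6, rfl⟩
    exact Mt_cont S η
  bdd := by
    rintro A T ⟨a, ν, S, η, h1, h2, h3, h4, h5, h6, rfl⟩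
    exact Mt_bd h5

theorem up_w (hPar : S_Par) {h C B t0 : ℝ} (hB : 0 < B)
    (hF : ∀ χ : ℝ → ℂ, Sm h χ → ∃ F : ℝ × ℕ → ℝ → ℂ,
      (∀ᶠ p in Lx C, Y23.G.F.Hn p.1 (p.2 : ℕ∞) (F p) ∧ |Y23.QQ (F p)| ≤ Real.exp (-(1 * Real.exp (2 * p.1))) ∧
        Integrable fun v : ℝ => (1 + v ^ 2) * ‖Y23.TT (F p) (v * Complex.I) - XX (v * Complex.I) * Y23.TT χ (v * Complex.I)‖ ^ 2) ∧
      Tendsto (fun p => ∫ v : ℝ, (1 + v ^ 2) * ‖Y23.TT (F p) (v * Complex.I) - XX (v * Complex.I) * Y23.TT χ (v * Complex.I)‖ ^ 2) (Lx C) (𝓝 0))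
    {χ : ℝ → ℂ} (hχ : Sm h χ) : Up (Adm C B t0) (wX χ) := by
  intro ε hε
  obtain ⟨F, hF1, hF2⟩ := hF χ hχ
  set W : ℝ := ∫ v : ℝ, (1 + v ^ 2) * wX χ v with hW
  have hW0 : 0 ≤ W := integral_nonneg fun v => mul_nonneg (by positivity) (wX_nonneg _ _)
  obtain ⟨s, hs, hsW⟩ : ∃ s : ℝ, 0 < s ∧ B * (s * W) ≤ ε / 4 := by
    refine ⟨ε / (4 * B * (W + 1)), by positivity, ?_⟩
    have e1 : B * (ε / (4 * B * (W + 1)) * W) = ε / 4 * (W / (W + 1)) := by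
      field_simp
    rw [e1]
    refine mul_le_of_le_one_right (by positivity) ?_
    rw [div_le_one (by positivity)]
    linarith
  have h3 : ∀ᶠ p in Lx C, (∫ v : ℝ, (1 + v ^ 2) * ‖Y23.TT (F p) (v * Complex.I) -
      XX (v * Complex.I) * Y23.TT χ (v * Complex.I)‖ ^ 2) < ε / (4 * B * (1 + 1 / s)) :=
    hF2.eventually_lt_const (by positivity)
  obtain ⟨A1, hA1⟩ := Lx_ev (hF1.and h3)
  have h4 : Tendsto (fun a : ℝ => Real.pi * Real.exp (-(Real.exp (2 * a)))) atTop (𝓝 (Real.pi * 0)) := by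
    refine Tendsto.const_mul _ (Real.tendsto_exp_neg_atTop_nhds_zero.comp ?_)
    exact Real.tendsto_exp_atTop.comp (tendsto_id.const_mul_atTop two_pos)
  rw [mul_zero] at h4
  obtain ⟨A2, hA2⟩ := (h4.eventually_lt_const (by positivity : 0 < ε / 2)).exists_forall_of_atTop
  refine ⟨max A1 A2, ?_⟩
  rintro T ⟨a, ν, S, η, h5, h6, h7, h8, h9, h10, rfl⟩
  set n : ℕ := ⌈C * a * Real.exp (2 * a)⌉₊ with hn
  obtain ⟨⟨hHn, hQQ, hint⟩, hI⟩ := hA1 a n ((le_max_left _ _).trans h5) le_rfl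
  have hexp := hA2 a ((le_max_right _ _).trans h5)
  set f : ℝ → ℂ := F (a, n) with hf
  have hfa : Y23.Fa a f := hHn.1
  have hHν : Y23.G.F.Hn a ν f := ⟨hHn.1, hHn.2.1, fun k hk => hHn.2.2 k (lt_of_le_of_lt h7 hk)⟩
  have hpos := h10 f hHν
  have hTb := Mt_bd h9
  -- the value on the trial function
  have hval : ∫ v : ℝ, ‖Y23.TT f (v * Complex.I)‖ ^ 2 * Mt S η v ≤ Real.pi * Real.exp (-(Real.exp (2 * a))) := by
    rw [Mt_int (Y23.int_TT_sq hfa)]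
    have e1 : ∑ t ∈ S, η t * ∫ v : ℝ, ‖Y23.TT f (v * Complex.I)‖ ^ 2 * Real.cos (t * v) =
        Real.pi * (2 * ∑ t ∈ S, η t * (∫ x : ℝ, f (x + t) * (starRingEnd ℂ) (f x)).re) := by
      rw [Finset.mul_sum, Finset.mul_sum]
      refine Finset.sum_congr rfl fun t _ => ?_
      rw [← hPar a t f (by linarith) hfa]
      ring
    rw [e1]
    refine mul_le_mul_of_nonneg_left (hpos.trans ((le_abs_self _).trans ?_)) Real.pi_pos.le
    have := hQQ
    rwa [one_mul] at this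
  have hcl := (close (w := wX χ) (T := Mt S η) (B := B) (s := s)
    (f := fun v : ℝ => Y23.TT f (v * Complex.I))
    (g := fun v : ℝ => XX (v * Complex.I) * Y23.TT χ (v * Complex.I)) hs (Mt_cont S η)
    (fun v => (hTb v).trans (le_mul_of_one_le_right hB.le (by nlinarith [sq_nonneg v])))
    (TT_cont hfa) (XX_cont.mul (TT_cont (fa_sm hχ))) (fun v => rfl) (wX_int hχ) hint).2
  have h11 := (abs_le.1 hcl).1
  have h12 : B * ((1 + 1 / s) * ∫ v : ℝ, (1 + v ^ 2) * ‖Y23.TT f (v * Complex.I) -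
      XX (v * Complex.I) * Y23.TT χ (v * Complex.I)‖ ^ 2) ≤ ε / 4 := by
    rw [lt_div_iff₀ (by positivity)] at hI
    have : B * ((1 + 1 / s) * ∫ v : ℝ, (1 + v ^ 2) * ‖Y23.TT f (v * Complex.I) -
      XX (v * Complex.I) * Y23.TT χ (v * Complex.I)‖ ^ 2) = (∫ v : ℝ, (1 + v ^ 2) * ‖Y23.TT f (v * Complex.I) -
      XX (v * Complex.I) * Y23.TT χ (v * Complex.I)‖ ^ 2) * (4 * B * (1 + 1 / s)) / 4 := by ring
    rw [this]
    linarith
  rw [mul_add] at h11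
  linarith

theorem bnd (hTr : S_TrX) (hPoly : S_Poly) (hKer : S_Ker) (hPar : S_Par) : S_Bnd := by
  obtain ⟨h, C, hh, hC, hF⟩ := hTr 1 (by linarith [Real.pi_gt_three])
  refine ⟨C, hC, fun B t0 g ε ht0 hg hgs hg0 hε => ?_⟩
  obtain ⟨B', hB', hBB'⟩ : ∃ B' : ℝ, 0 < B' ∧ B ≤ B' := ⟨max B 1, by positivity, le_max_left _ _⟩
  obtain ⟨K, hKc, hK0, -, hKa, hKi, hKcos, -⟩ := hKer t0 ht0
  have hKi' : Integrable K := by
    refine hKi.mono' hKc.aestronglyMeasurable (Eventually.of_forall fun v => ?_)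
    rw [Real.norm_of_nonneg (hK0 v)]
    exact le_mul_of_one_le_left (hK0 v) (by nlinarith [sq_nonneg v])
  have ok := adm_ok C B' t0
  have hKT : ∀ A T, Adm C B' t0 A T → ∫ v, K v * T v = 0 := by
    rintro A T ⟨a, ν, S, η, h1, h2, h3, h4, h5, h6, rfl⟩
    rw [Mt_int hKi']
    refine Finset.sum_eq_zero fun t ht => ?_
    rw [hKcos t ((h4 t ht).trans (le_abs_self t)), mul_zero]
  have hw : ∀ χ : ℝ → ℂ, Sm h χ → Up (Adm C B' t0) (wX χ) := fun χ hχ => up_w hPar hB' hF hχ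
  have hp : ∀ φ : ℝ → ℝ, Integrable φ → (∀ v, 0 ≤ φ v) → Up (Adm C B' t0) φ := fun φ h1 h2 =>
    up_pos ok hB' (fun φ h1 h2 h3 => up_cc ok hB' (fun g hg hgs => up_sq hPoly ok hB' (fun P =>
      up_poly ok hB' hh hw P) hg hgs) h1 h2 h3) h1 h2
  obtain ⟨φ, hφ, hφg⟩ := cos_rep hg hgs
  obtain ⟨A, hA⟩ := two_sided ok hB' hp hKi' hK0 hKa hKT hφ hε
  refine ⟨max A 1, fun a ν ha hν S η hS hη hPos => ?_⟩
  have h1 := hA (Mt S η) ⟨a, ν, S, η, (le_max_left _ _).trans ha, (le_max_right _ _).trans ha, hν, hS,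
    hη.trans hBB', hPos, rfl⟩
  rw [Mt_int hφ] at h1
  have h2 : ∑ t ∈ S, η t * ∫ v, φ v * Real.cos (t * v) = ∑ t ∈ S, η t * g t := by
    refine Finset.sum_congr rfl fun t ht => ?_
    rw [← hφg t, hg0 (-t) (by linarith [hS t ht]), add_zero]
  rw [h2] at h1
  exact h1

end Pool.Agent.Q211.PR
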