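import Pool.Agent.Q211.PR.Mol

set_option autoImplicit false

/-!
# Project PR: families of multipliers, weak convergence to zero (abstract part)
-/

open Polynomial Filter Topology Finset MeasureTheory
open Pool.Agent.H24R2.JP (XX)
open Pool.Agent.Q240.PR

namespace Pool.Agent.Q211.PR

noncomputable def X2 (v : ℝ) : ℝ := ‖XX (v * Complex.I)‖ ^ 2

theorem X2_nonneg (v : ℝ) : 0 ≤ X2 v := by
  unfold X2
  positivity

theorem X2_cont : Continuous X2 := (XX_cont.norm).pow 2

theorem X2_exp : ∃ C : ℝ, 0 < C ∧ ∀ v : ℝ, X2 v ≤ C * Real.exp (-(1 * |v|)) := by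
  obtain ⟨C, hC, H⟩ := Y23.Z.XX_decay (φ := 1 / 2) (by norm_num) (by linarith [Real.pi_gt_three])
  refine ⟨C ^ 2, by positivity, fun v => ?_⟩
  unfold X2
  calc ‖XX (v * Complex.I)‖ ^ 2 ≤ (C * Real.exp (-(1 / 2 * |v|))) ^ 2 :=
        pow_le_pow_left₀ (norm_nonneg _) (H v) 2
    _ = C ^ 2 * Real.exp (-(1 * |v|)) := by
        rw [mul_pow, ← Real.exp_nat_mul]
        congr 2
        push_cast
        ring

theorem poly_exp (P : ℝ[X]) : ∀ δ : ℝ, 0 < δ → ∃ C : ℝ, 0 < C ∧ ∀ v : ℝ, |P.eval v| ≤ C * Real.exp (δ * |v|) := by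
  induction P using Polynomial.induction_on with
  | C a =>
    intro δ hδ
    refine ⟨|a| + 1, by positivity, fun v => ?_⟩
    rw [eval_C]
    have h1 : 1 ≤ Real.exp (δ * |v|) := Real.one_le_exp (by positivity)
    nlinarith [abs_nonneg a]
  | add p q hp hq =>
    intro δ hδ
    obtain ⟨C1, h1, h2⟩ := hp δ hδ
    obtain ⟨C2, h3, h4⟩ := hq δ hδ
    refine ⟨C1 + C2, by positivity, fun v => ?_⟩
    rw [eval_add, add_mul]
    exact (abs_add_le _ _).trans (add_le_add (h2 v) (h4 v))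
  | monomial n a h =>
    intro δ hδ
    obtain ⟨C1, h1, h2⟩ := h (δ / 2) (by positivity)
    refine ⟨2 / δ * C1, by positivity, fun v => ?_⟩
    have h3 : (C a * X ^ (n + 1) : ℝ[X]).eval v = v * (C a * X ^ n : ℝ[X]).eval v := by
      simp only [eval_mul, eval_C, eval_pow, eval_X]
      ring
    rw [h3, abs_mul]
    have h4 : |v| ≤ 2 / δ * Real.exp (δ / 2 * |v|) := by
      have h5 : δ / 2 * |v| ≤ Real.exp (δ / 2 * |v|) := by
        linarith [Real.add_one_le_exp (δ / 2 * |v|)]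
      calc |v| = 2 / δ * (δ / 2 * |v|) := by field_simp
        _ ≤ _ := mul_le_mul_of_nonneg_left h5 (by positivity)
    calc |v| * |(C a * X ^ n : ℝ[X]).eval v| ≤
          (2 / δ * Real.exp (δ / 2 * |v|)) * (C1 * Real.exp (δ / 2 * |v|)) :=
          mul_le_mul h4 (h2 v) (abs_nonneg _) (by positivity)
      _ = 2 / δ * C1 * (Real.exp (δ / 2 * |v|) * Real.exp (δ / 2 * |v|)) := by ring
      _ = 2 / δ * C1 * Real.exp (δ * |v|) := by
          rw [← Real.exp_add]
          congr 2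
          ring

theorem exp_int : Integrable (fun v : ℝ => Real.exp (-(|v| / 2))) := by
  refine (integrable_inv_one_add_sq.const_mul 256).mono' (Continuous.aestronglyMeasurable (by fun_prop))
    (Eventually.of_forall fun v => ?_)
  rw [Real.norm_of_nonneg (Real.exp_pos _).le]
  have h1 := exp_bd (v / 2)
  have h2 : |v / 2| = |v| / 2 := by
    rw [abs_div, abs_two]
  rw [h2] at h1
  have h3 := Real.exp_pos (-(|v| / 2))
  have h4 : Real.exp (-(|v| / 2)) ≤ (1 + (v / 2) ^ 2) * Real.exp (-(|v| / 2)) :=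
    le_mul_of_one_le_left h3.le (by nlinarith [sq_nonneg (v / 2)])
  have h5 : 64 * (1 + (v / 2) ^ 2)⁻¹ ≤ 256 * (1 + v ^ 2)⁻¹ := by
    rw [← div_eq_mul_inv, ← div_eq_mul_inv, div_le_div_iff₀ (by positivity) (by positivity)]
    nlinarith [sq_nonneg v]
  linarith

theorem X2P_int (P : ℝ[X]) : Integrable (fun v : ℝ => X2 v * P.eval v ^ 2) := by
  obtain ⟨C1, hC1, h1⟩ := X2_exp
  obtain ⟨C2, hC2, h2⟩ := poly_exp P (1 / 4) (by norm_num)
  refine (exp_int.const_mul (C1 * C2 ^ 2)).mono'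
    ((X2_cont.mul (P.continuous.pow 2)).aestronglyMeasurable) (Eventually.of_forall fun v => ?_)
  have h0 := X2_nonneg v
  rw [Real.norm_of_nonneg (by positivity)]
  have h3 : P.eval v ^ 2 ≤ C2 ^ 2 * Real.exp (|v| / 2) := by
    calc P.eval v ^ 2 = |P.eval v| ^ 2 := (sq_abs _).symm
      _ ≤ (C2 * Real.exp (1 / 4 * |v|)) ^ 2 := pow_le_pow_left₀ (abs_nonneg _) (h2 v) 2
      _ = C2 ^ 2 * Real.exp (|v| / 2) := by
          rw [mul_pow, ← Real.exp_nat_mul]
          congr 2
          push_cast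
          ring
  calc X2 v * P.eval v ^ 2 ≤ (C1 * Real.exp (-(1 * |v|))) * (C2 ^ 2 * Real.exp (|v| / 2)) :=
        mul_le_mul (h1 v) h3 (by positivity) (by positivity)
    _ = C1 * C2 ^ 2 * (Real.exp (-(1 * |v|)) * Real.exp (|v| / 2)) := by ring
    _ = C1 * C2 ^ 2 * Real.exp (-(|v| / 2)) := by
        rw [← Real.exp_add]
        congr 2
        ring

theorem X2_ae : ∀ᵐ v : ℝ, 0 < X2 v := by
  have hA : AnalyticOnNhd ℝ (fun v : ℝ => XX (v * Complex.I)) Set.univ := by
    intro v _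
    have h1 : AnalyticAt ℂ XX ((v : ℂ) * Complex.I) := Pool.Agent.H24R2.JP.B1h.XX_diff.analyticAt _
    have h2 : AnalyticAt ℝ (fun v : ℝ => (v : ℂ) * Complex.I) v :=
      (Complex.ofRealCLM.analyticAt v).mul analyticAt_const
    exact AnalyticAt.fun_comp (h1.restrictScalars (𝕜 := ℝ)) h2
  have h0 : (fun v : ℝ => XX (v * Complex.I)) 0 ≠ 0 := by
    simp only [Complex.ofReal_zero, zero_mul]
    exact Y23.XX_zero_ne
  have h1 := hA.preimage_zero_mem_codiscrete h0
  have h2 := ae_restrict_le_codiscreteWithin (μ := (volume : Measure ℝ)) MeasurableSet.univ h1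
  rw [Measure.restrict_univ] at h2
  filter_upwards [h2] with v hv
  have h3 : XX (v * Complex.I) ≠ 0 := hv
  unfold X2
  positivity

/-- families of multipliers -/
structure FamOK (Fm : ℝ → (ℝ → ℝ) → Prop) (B : ℝ) : Prop where
  mono : ∀ A A' T, A ≤ A' → Fm A' T → Fm A T
  cont : ∀ A T, Fm A T → Continuous T
  bdd : ∀ A T, Fm A T → ∀ v, |T v| ≤ B

/-- in the limit the integral is at most zero -/
def Up (Fm : ℝ → (ℝ → ℝ) → Prop) (φ : ℝ → ℝ) : Prop :=
  ∀ ε : ℝ, 0 < ε → ∃ A : ℝ, ∀ T, Fm A T → ∫ v, φ v * T v ≤ ε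

theorem prod_int {φ T : ℝ → ℝ} {B : ℝ} (hφ : Integrable φ) (hT : Continuous T) (hB : ∀ v, |T v| ≤ B) :
    Integrable (fun v => φ v * T v) :=
  hφ.mul_bdd (c := B) hT.aestronglyMeasurable (Eventually.of_forall hB)

theorem prod_bd {φ T : ℝ → ℝ} {B : ℝ} (hφ : Integrable φ) (hB : ∀ v, |T v| ≤ B) :
    |∫ v, φ v * T v| ≤ B * ∫ v, |φ v| := by
  rw [← Real.norm_eq_abs, ← integral_const_mul]
  refine norm_integral_le_of_norm_le (hφ.abs.const_mul B) (Eventually.of_forall fun v => ?_)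
  rw [norm_mul, Real.norm_eq_abs, Real.norm_eq_abs, mul_comm]
  exact mul_le_mul_of_nonneg_right (hB v) (abs_nonneg _)

theorem up_approx {Fm : ℝ → (ℝ → ℝ) → Prop} {B : ℝ} (ok : FamOK Fm B) (hB : 0 < B) {φ : ℝ → ℝ}
    (hφ : Integrable φ)
    (h : ∀ ε : ℝ, 0 < ε → ∃ ψ : ℝ → ℝ, Integrable ψ ∧ Up Fm ψ ∧ ∫ v, |φ v - ψ v| ≤ ε) : Up Fm φ := by
  intro ε hε
  obtain ⟨ψ, h1, h2, h3⟩ := h (ε / (2 * B)) (by positivity)
  obtain ⟨A, hA⟩ := h2 (ε / 2) (by positivity)
  refine ⟨A, fun T hT => ?_⟩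
  have hc := ok.cont A T hT
  have hb := ok.bdd A T hT
  have h4 := hA T hT
  have h5 := prod_bd (hφ.sub h1) hb
  have h6 : ∫ v, φ v * T v = (∫ v, ψ v * T v) + ∫ v, (φ - ψ) v * T v := by
    rw [← integral_add (prod_int h1 hc hb) (prod_int (hφ.sub h1) hc hb)]
    refine integral_congr_ae (Eventually.of_forall fun v => ?_)
    simp only [Pi.sub_apply]
    ring
  have h7 : ∫ v, |(φ - ψ) v| ≤ ε / (2 * B) := h3
  have h8 : B * ∫ v, |(φ - ψ) v| ≤ ε / 2 := by
    calc B * ∫ v, |(φ - ψ) v| ≤ B * (ε / (2 * B)) := mul_le_mul_of_nonneg_left h7 hB.le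
      _ = ε / 2 := by field_simp
  rw [h6]
  linarith [(abs_le.1 h5).2]

/-- polynomials -/
theorem up_poly {Fm : ℝ → (ℝ → ℝ) → Prop} {B : ℝ} (ok : FamOK Fm B) (hB : 0 < B) {h : ℝ} (hh : 0 < h)
    (hw : ∀ χ : ℝ → ℂ, Sm h χ → Up Fm (wX χ)) (P : ℝ[X]) : Up Fm (fun v => X2 v * P.eval v ^ 2) := by
  refine up_approx ok hB (X2P_int P) fun ε hε => ?_
  obtain ⟨ψ, hψ1, hψ2, hψ3⟩ := moll hh
  have h1 : ∀ n, ∃ χ : ℝ → ℂ, Sp (h / 2) χ ∧
      ∀ v : ℝ, Y23.TT χ (v * Complex.I) = P.eval v * Y23.TT (ψ n) (v * Complex.I) := fun n =>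
    Sp.poly P (ψ n) (hψ1 n)
  choose χ hχ1 hχ2 using h1
  have hsm : ∀ n, Sm h (χ n) := fun n => (hχ1 n).sm (by linarith)
  have hwn : ∀ n v, wX (χ n) v = X2 v * P.eval v ^ 2 * ‖Y23.TT (ψ n) (v * Complex.I)‖ ^ 2 := by
    intro n v
    unfold wX X2
    rw [hχ2, norm_mul, norm_mul, Complex.norm_real, Real.norm_eq_abs, mul_pow, mul_pow, sq_abs]
    ring
  have hwi : ∀ n, Integrable (wX (χ n)) := fun n => by
    refine (wX_int (hsm n)).mono' (wX_cont (hsm n)).aestronglyMeasurable (Eventually.of_forall fun v => ?_)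
    rw [Real.norm_of_nonneg (wX_nonneg _ _)]
    exact le_mul_of_one_le_left (wX_nonneg _ _) (by nlinarith [sq_nonneg v])
  have hdiff : ∀ n v, |X2 v * P.eval v ^ 2 - wX (χ n) v| ≤ X2 v * P.eval v ^ 2 := by
    intro n v
    rw [hwn]
    have h2 : ‖Y23.TT (ψ n) (v * Complex.I)‖ ^ 2 ≤ 1 := pow_le_one₀ (norm_nonneg _) (hψ2 n v)
    have h3 : 0 ≤ ‖Y23.TT (ψ n) (v * Complex.I)‖ ^ 2 := by positivity
    have h4 : 0 ≤ X2 v * P.eval v ^ 2 := mul_nonneg (X2_nonneg v) (by positivity)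
    rw [abs_of_nonneg (by nlinarith)]
    nlinarith
  have hlim : Tendsto (fun n => ∫ v, |X2 v * P.eval v ^ 2 - wX (χ n) v|) atTop (𝓝 (∫ _ : ℝ, (0 : ℝ))) := by
    refine tendsto_integral_of_dominated_convergence (fun v => X2 v * P.eval v ^ 2) (fun n => ?_) (X2P_int P)
      (fun n => Eventually.of_forall fun v => ?_) (Eventually.of_forall fun v => ?_)
    · exact ((X2P_int P).sub (hwi n)).abs.aestronglyMeasurable
    · rw [Real.norm_eq_abs, abs_abs]
      exact hdiff n v
    · have h2 : Tendsto (fun n => X2 v * P.eval v ^ 2 - X2 v * P.eval v ^ 2 *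
          ‖Y23.TT (ψ n) (v * Complex.I)‖ ^ 2) atTop (𝓝 (X2 v * P.eval v ^ 2 - X2 v * P.eval v ^ 2 * ‖(1 : ℂ)‖ ^ 2)) :=
        tendsto_const_nhds.sub (((hψ3 v).norm.pow 2).const_mul _)
      have h3 := h2.abs
      rw [norm_one, one_pow, mul_one, sub_self, abs_zero] at h3
      refine h3.congr fun n => ?_
      rw [hwn]
  rw [integral_zero] at hlim
  obtain ⟨n, hn⟩ := (hlim.eventually_lt_const hε).exists
  exact ⟨wX (χ n), hwi n, hw _ (hsm n), hn.le⟩

/-- squares of continuous functions with compact support -/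
theorem up_sq (hPoly : S_Poly) {Fm : ℝ → (ℝ → ℝ) → Prop} {B : ℝ} (ok : FamOK Fm B) (hB : 0 < B)
    (hP : ∀ P : ℝ[X], Up Fm (fun v => X2 v * P.eval v ^ 2)) {g : ℝ → ℝ} (hg : Continuous g)
    (hgs : HasCompactSupport g) : Up Fm (fun v => X2 v * g v ^ 2) := by
  have hgi : Integrable (fun v => X2 v * g v ^ 2) := by
    refine (X2_cont.mul (hg.pow 2)).integrable_of_hasCompactSupport ?_
    refine hgs.mono fun x hx => ?_
    rw [Function.mem_support] at hx ⊢
    intro h
    apply hx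
    show X2 x * g x ^ 2 = 0
    rw [h]
    ring
  refine up_approx ok hB hgi fun ε hε => ?_
  set W : ℝ := ∫ v, X2 v * g v ^ 2 with hW
  have hW0 : 0 ≤ W := integral_nonneg fun v => mul_nonneg (X2_nonneg v) (by positivity)
  obtain ⟨s, hs, hsW⟩ : ∃ s : ℝ, 0 < s ∧ s * W ≤ ε / 2 := by
    refine ⟨ε / (2 * (W + 1)), by positivity, ?_⟩
    have e1 : ε / (2 * (W + 1)) * W = ε / 2 * (W / (W + 1)) := by
      field_simp
    rw [e1]
    refine mul_le_of_le_one_right (by positivity) ?_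
    rw [div_le_one (by positivity)]
    linarith
  obtain ⟨C, hC, hX⟩ := X2_exp
  obtain ⟨P, hPP⟩ := hPoly X2 C 1 X2_cont X2_nonneg one_pos hX g hg hgs (ε / (2 * (1 + 1 / s))) (by positivity)
  have hPi := X2P_int P
  have hd : Integrable (fun v => X2 v * (P.eval v - g v) ^ 2) := by
    refine ((hPi.const_mul 2).add (hgi.const_mul 2)).mono'
      (X2_cont.mul ((P.continuous.sub hg).pow 2)).aestronglyMeasurable (Eventually.of_forall fun v => ?_)
    have h0 := X2_nonneg v
    rw [Real.norm_of_nonneg (by positivity)]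
    simp only [Pi.add_apply]
    have h1 : (P.eval v - g v) ^ 2 ≤ 2 * P.eval v ^ 2 + 2 * g v ^ 2 := by
      nlinarith [sq_nonneg (P.eval v + g v)]
    nlinarith [mul_le_mul_of_nonneg_left h1 h0]
  refine ⟨fun v => X2 v * P.eval v ^ 2, hPi, hP P, ?_⟩
  calc ∫ v, |X2 v * g v ^ 2 - X2 v * P.eval v ^ 2| ≤
        ∫ v, ((1 + 1 / s) * (X2 v * (P.eval v - g v) ^ 2) + s * (X2 v * g v ^ 2)) := by
        refine integral_mono (hgi.sub hPi).abs ((hd.const_mul _).add (hgi.const_mul s)) fun v => ?_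
        simp only
        have h0 := X2_nonneg v
        have h1 : |g v ^ 2 - P.eval v ^ 2| ≤ (1 + 1 / s) * (P.eval v - g v) ^ 2 + s * g v ^ 2 := by
          set x := P.eval v - g v with hx
          have e1 : g v ^ 2 - P.eval v ^ 2 = -(x ^ 2 + 2 * x * g v) := by
            rw [hx]
            ring
          rw [e1, abs_neg]
          have h2 : |2 * x * g v| ≤ 1 / s * x ^ 2 + s * g v ^ 2 := by
            have h3 : 0 ≤ (|x| - s * |g v|) ^ 2 / s := by positivity
            have h4 : (|x| - s * |g v|) ^ 2 / s = 1 / s * |x| ^ 2 + s * |g v| ^ 2 - 2 * (|x| * |g v|) := by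
              field_simp
              ring
            rw [sq_abs, sq_abs] at h4
            rw [abs_mul, abs_mul, abs_two]
            linarith
          calc |x ^ 2 + 2 * x * g v| ≤ |x ^ 2| + |2 * x * g v| := abs_add_le _ _
            _ ≤ x ^ 2 + (1 / s * x ^ 2 + s * g v ^ 2) := by
                rw [abs_of_nonneg (sq_nonneg x)]
                linarith
            _ = _ := by ring
        rw [← mul_sub, abs_mul, abs_of_nonneg h0]
        calc X2 v * |g v ^ 2 - P.eval v ^ 2| ≤ X2 v * ((1 + 1 / s) * (P.eval v - g v) ^ 2 + s * g v ^ 2) :=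
              mul_le_mul_of_nonneg_left h1 h0
          _ = _ := by ring
    _ = (1 + 1 / s) * (∫ v, X2 v * (P.eval v - g v) ^ 2) + s * W := by
        rw [integral_add (hd.const_mul _) (hgi.const_mul s), integral_const_mul, integral_const_mul]
    _ ≤ (1 + 1 / s) * (ε / (2 * (1 + 1 / s))) + ε / 2 :=
        add_le_add (mul_le_mul_of_nonneg_left hPP (by positivity)) hsW
    _ = ε := by
        field_simp
        ring

/-- nonnegative continuous functions with compact support -/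
theorem up_cc {Fm : ℝ → (ℝ → ℝ) → Prop} {B : ℝ} (ok : FamOK Fm B) (hB : 0 < B)
    (hS : ∀ g : ℝ → ℝ, Continuous g → HasCompactSupport g → Up Fm (fun v => X2 v * g v ^ 2)) {φ : ℝ → ℝ}
    (hφ : Continuous φ) (hφs : HasCompactSupport φ) (hφ0 : ∀ v, 0 ≤ φ v) : Up Fm φ := by
  have hφi : Integrable φ := hφ.integrable_of_hasCompactSupport hφs
  refine up_approx ok hB hφi fun ε hε => ?_
  have hkp : ∀ k : ℕ, (0 : ℝ) < 1 / ((k : ℝ) + 1) := fun k => by positivity
  have hden : ∀ (k : ℕ) (v : ℝ), 0 < X2 v + 1 / ((k : ℝ) + 1) := fun k v => by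
    have := X2_nonneg v
    have := hkp k
    linarith
  have hgc : ∀ k : ℕ, Continuous (fun v => Real.sqrt (φ v / (X2 v + 1 / ((k : ℝ) + 1)))) := fun k =>
    Real.continuous_sqrt.comp (hφ.div (X2_cont.add continuous_const) fun v => (hden k v).ne')
  have hgs : ∀ k : ℕ, HasCompactSupport (fun v => Real.sqrt (φ v / (X2 v + 1 / ((k : ℝ) + 1)))) := fun k => by
    refine hφs.mono fun x hx => ?_
    rw [Function.mem_support] at hx ⊢
    intro h
    apply hx
    rw [h]
    simp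
  have hval : ∀ (k : ℕ) (v : ℝ), X2 v * Real.sqrt (φ v / (X2 v + 1 / ((k : ℝ) + 1))) ^ 2 =
      φ v * (X2 v / (X2 v + 1 / ((k : ℝ) + 1))) := fun k v => by
    rw [Real.sq_sqrt (div_nonneg (hφ0 v) (hden k v).le)]
    ring
  have hr : ∀ (k : ℕ) (v : ℝ), 0 ≤ X2 v / (X2 v + 1 / ((k : ℝ) + 1)) ∧ X2 v / (X2 v + 1 / ((k : ℝ) + 1)) ≤ 1 :=
    fun k v => ⟨div_nonneg (X2_nonneg v) (hden k v).le, (div_le_one (hden k v)).2 (by linarith [hkp k])⟩
  have hi : ∀ k : ℕ, Integrable (fun v => X2 v * Real.sqrt (φ v / (X2 v + 1 / ((k : ℝ) + 1))) ^ 2) := fun k => by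
    refine hφi.mono' (X2_cont.mul ((hgc k).pow 2)).aestronglyMeasurable (Eventually.of_forall fun v => ?_)
    rw [hval, Real.norm_of_nonneg (mul_nonneg (hφ0 v) (hr k v).1)]
    exact mul_le_of_le_one_right (hφ0 v) (hr k v).2
  have hlim : Tendsto (fun k : ℕ => ∫ v, |φ v - X2 v * Real.sqrt (φ v / (X2 v + 1 / ((k : ℝ) + 1))) ^ 2|) atTop
      (𝓝 (∫ _ : ℝ, (0 : ℝ))) := by
    refine tendsto_integral_of_dominated_convergence φ (fun n => ?_) hφi
      (fun n => Eventually.of_forall fun v => ?_) ?_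
    · exact (hφi.sub (hi n)).abs.aestronglyMeasurable
    · rw [Real.norm_eq_abs, abs_abs, hval]
      have h1 := hr n v
      have h2 := hφ0 v
      rw [abs_of_nonneg (by nlinarith)]
      nlinarith
    · filter_upwards [X2_ae] with v hv
      have h1 : Tendsto (fun k : ℕ => 1 / ((k : ℝ) + 1)) atTop (𝓝 0) := tendsto_one_div_add_atTop_nhds_zero_nat
      have h2 : Tendsto (fun k : ℕ => φ v - φ v * (X2 v / (X2 v + 1 / ((k : ℝ) + 1)))) atTop
          (𝓝 (φ v - φ v * (X2 v / (X2 v + 0)))) :=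
        tendsto_const_nhds.sub ((tendsto_const_nhds.div (tendsto_const_nhds.add h1) (by
          rw [add_zero]
          exact hv.ne')).const_mul _)
      rw [add_zero, div_self hv.ne', mul_one, sub_self] at h2
      have h3 := h2.abs
      rw [abs_zero] at h3
      refine h3.congr fun k => ?_
      rw [hval]
  rw [integral_zero] at hlim
  obtain ⟨k, hk⟩ := (hlim.eventually_lt_const hε).exists
  exact ⟨_, hi k, hS _ (hgc k) (hgs k), hk.le⟩

/-- nonnegative integrable functions -/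
theorem up_pos {Fm : ℝ → (ℝ → ℝ) → Prop} {B : ℝ} (ok : FamOK Fm B) (hB : 0 < B)
    (hS : ∀ φ : ℝ → ℝ, Continuous φ → HasCompactSupport φ → (∀ v, 0 ≤ φ v) → Up Fm φ) {φ : ℝ → ℝ}
    (hφ : Integrable φ) (hφ0 : ∀ v, 0 ≤ φ v) : Up Fm φ := by
  refine up_approx ok hB hφ fun ε hε => ?_
  obtain ⟨g, hgs, hg1, hgc, hgi⟩ := hφ.exists_hasCompactSupport_integral_sub_le hε
  have hmi : Integrable (fun v => max (g v) 0) := hgi.pos_part
  refine ⟨fun v => max (g v) 0, hmi, hS _ (hgc.max continuous_const) ?_ (fun v => le_max_right _ _), ?_⟩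
  · refine hgs.mono fun x hx => ?_
    rw [Function.mem_support] at hx ⊢
    intro h
    apply hx
    rw [h]
    simp
  · refine le_trans (integral_mono (hφ.sub hmi).abs (hφ.sub hgi).norm fun v => ?_) hg1
    simp only [Pi.sub_apply]
    rw [Real.norm_eq_abs]
    have h0 := hφ0 v
    rcases le_total (g v) 0 with h | h
    · rw [max_eq_right h, sub_zero, abs_of_nonneg h0, abs_of_nonneg (by linarith)]
      linarith
    · rw [max_eq_left h]

/-- both sides -/
theorem two_sided {Fm : ℝ → (ℝ → ℝ) → Prop} {B : ℝ} (ok : FamOK Fm B) (hB : 0 < B)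
    (hS : ∀ φ : ℝ → ℝ, Integrable φ → (∀ v, 0 ≤ φ v) → Up Fm φ) {K : ℝ → ℝ} (hK : Integrable K)
    (hK0 : ∀ v, 0 ≤ K v) (hKa : ∀ᵐ v : ℝ, 0 < K v) (hKT : ∀ A T, Fm A T → ∫ v, K v * T v = 0) {φ : ℝ → ℝ}
    (hφ : Integrable φ) {ε : ℝ} (hε : 0 < ε) : ∃ A : ℝ, ∀ T, Fm A T → |∫ v, φ v * T v| ≤ ε := by
  -- lower bound for nonnegative functions
  have low : ∀ φ : ℝ → ℝ, Integrable φ → (∀ v, 0 ≤ φ v) → Up Fm (fun v => -φ v) := by
    intro φ hφ hφ0
    refine up_approx ok hB hφ.neg fun ε hε => ?_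
    have hi : ∀ k : ℕ, Integrable (fun v => min (φ v) (k * K v)) := fun k => hφ.inf (hK.const_mul _)
    have hlim : Tendsto (fun k : ℕ => ∫ v, |φ v - min (φ v) (k * K v)|) atTop (𝓝 (∫ _ : ℝ, (0 : ℝ))) := by
      refine tendsto_integral_of_dominated_convergence φ (fun n => ?_) hφ
        (fun n => Eventually.of_forall fun v => ?_) ?_
      · exact (hφ.sub (hi n)).abs.aestronglyMeasurable
      · rw [Real.norm_eq_abs, abs_abs]
        have h1 : 0 ≤ min (φ v) (n * K v) := le_min (hφ0 v) (mul_nonneg (Nat.cast_nonneg n) (hK0 v))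
        have h2 : min (φ v) (n * K v) ≤ φ v := min_le_left _ _
        rw [abs_of_nonneg (by linarith)]
        linarith
      · filter_upwards [hKa] with v hv
        obtain ⟨n, hn⟩ := exists_nat_gt (φ v / K v)
        refine tendsto_const_nhds.congr' ?_
        filter_upwards [eventually_ge_atTop n] with k hk
        have h1 : φ v ≤ k * K v := by
          rw [div_lt_iff₀ hv] at hn
          have h2 : (n : ℝ) ≤ k := by exact_mod_cast hk
          nlinarith
        rw [min_eq_left h1, sub_self, abs_zero]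
    rw [integral_zero] at hlim
    obtain ⟨k, hk⟩ := (hlim.eventually_lt_const hε).exists
    refine ⟨fun v => -min (φ v) (k * K v), (hi k).neg, ?_, ?_⟩
    · intro δ hδ
      obtain ⟨A, hA⟩ := hS (fun v => k * K v - min (φ v) (k * K v)) ((hK.const_mul _).sub (hi k))
        (fun v => sub_nonneg.2 (min_le_right _ _)) δ hδ
      refine ⟨A, fun T hT => ?_⟩
      have hc := ok.cont A T hT
      have hb := ok.bdd A T hT
      have h1 := hA T hT
      have hneg : Integrable (fun v => -min (φ v) (k * K v)) := (hi k).neg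
      have h2 : ∫ v, (k * K v - min (φ v) (k * K v)) * T v =
          k * (∫ v, K v * T v) + ∫ v, -min (φ v) (k * K v) * T v := by
        rw [← integral_const_mul, ← integral_add ((prod_int hK hc hb).const_mul _) (prod_int hneg hc hb)]
        refine integral_congr_ae (Eventually.of_forall fun v => ?_)
        simp only
        ring
      rw [h2, hKT A T hT, mul_zero, zero_add] at h1
      exact h1
    · refine le_trans (le_of_eq ?_) hk.le
      refine integral_congr_ae (Eventually.of_forall fun v => ?_)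
      simp only
      rw [show -φ v - -min (φ v) (k * K v) = -(φ v - min (φ v) (k * K v)) by ring, abs_neg]
  -- decomposition
  have hp : Integrable (fun v => max (φ v) 0) := hφ.pos_part
  have hn : Integrable (fun v => max (-φ v) 0) := hφ.neg.pos_part
  obtain ⟨A1, h1⟩ := hS _ hp (fun v => le_max_right _ _) (ε / 2) (by positivity)
  obtain ⟨A2, h2⟩ := hS _ hn (fun v => le_max_right _ _) (ε / 2) (by positivity)
  obtain ⟨A3, h3⟩ := low _ hp (fun v => le_max_right _ _) (ε / 2) (by positivity)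
  obtain ⟨A4, h4⟩ := low _ hn (fun v => le_max_right _ _) (ε / 2) (by positivity)
  refine ⟨max (max A1 A2) (max A3 A4), fun T hT => ?_⟩
  have hc := ok.cont _ T hT
  have hb := ok.bdd _ T hT
  have k1 := h1 T (ok.mono _ _ T ((le_max_left _ _).trans (le_max_left _ _)) hT)
  have k2 := h2 T (ok.mono _ _ T ((le_max_right _ _).trans (le_max_left _ _)) hT)
  have k3 := h3 T (ok.mono _ _ T ((le_max_left _ _).trans (le_max_right _ _)) hT)
  have k4 := h4 T (ok.mono _ _ T ((le_max_right _ _).trans (le_max_right _ _)) hT)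
  have e1 : ∫ v, φ v * T v = (∫ v, max (φ v) 0 * T v) - ∫ v, max (-φ v) 0 * T v := by
    rw [← integral_sub (prod_int hp hc hb) (prod_int hn hc hb)]
    refine integral_congr_ae (Eventually.of_forall fun v => ?_)
    simp only
    rcases le_total (φ v) 0 with h | h
    · rw [max_eq_right h, max_eq_left (by linarith)]
      ring
    · rw [max_eq_left h, max_eq_right (by linarith)]
      ring
  have e2 : ∫ v, -max (φ v) 0 * T v = -∫ v, max (φ v) 0 * T v := by
    rw [← integral_neg]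
    exact integral_congr_ae (Eventually.of_forall fun v => by simp only; ring)
  have e3 : ∫ v, -max (-φ v) 0 * T v = -∫ v, max (-φ v) 0 * T v := by
    rw [← integral_neg]
    exact integral_congr_ae (Eventually.of_forall fun v => by simp only; ring)
  rw [e2] at k3
  rw [e3] at k4
  rw [e1, abs_le]
  constructor <;> linarith

end Pool.Agent.Q211.PR
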