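import Pool.Agent.Q240.PR.Stm2

set_option autoImplicit false

/-!
# Project PR: uniform detection on a compact family
-/

open Filter Topology Finset MeasureTheory
open Pool.Agent.H24R2.JP (XX)
open Pool.Agent.Q240.PR

namespace Pool.Agent.Q211.PR

theorem fa_sm {h : ℝ} {χ : ℝ → ℂ} (hχ : Sm h χ) : Y23.Fa h χ := by
  have hc : Continuous χ := (hχ.1 0).continuous
  refine ⟨?_, fun x hx => hχ.2 x hx.le⟩
  have hcs : HasCompactSupport χ := HasCompactSupport.intro (isCompact_Icc (a := -h) (b := h)) (fun x hx => hχ.2 x (by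
    by_contra h'
    push Not at h'
    exact hx (abs_le.1 h'.le)))
  exact hc.memLp_of_hasCompactSupport hcs

/-- the limit of the squares -/
noncomputable def wX (χ : ℝ → ℂ) (v : ℝ) : ℝ := ‖XX (v * Complex.I) * Y23.TT χ (v * Complex.I)‖ ^ 2

theorem wX_nonneg (χ : ℝ → ℂ) (v : ℝ) : 0 ≤ wX χ v := by
  unfold wX
  positivity

theorem TT_bd (χ : ℝ → ℂ) (v : ℝ) : ‖Y23.TT χ (v * Complex.I)‖ ≤ ∫ x : ℝ, ‖χ x‖ := by
  unfold Y23.TT
  refine (norm_integral_le_integral_norm _).trans (le_of_eq ?_)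
  refine integral_congr_ae (Eventually.of_forall fun x => ?_)
  simp only
  rw [norm_mul, Complex.norm_exp]
  simp

theorem line_cont : Continuous (fun v : ℝ => (v : ℂ) * Complex.I) := by fun_prop

theorem XX_cont : Continuous (fun v : ℝ => XX (v * Complex.I)) :=
  Pool.Agent.H24R2.JP.B1h.XX_diff.continuous.comp line_cont

theorem TT_cont {a : ℝ} {f : ℝ → ℂ} (hf : Y23.Fa a f) : Continuous (fun v : ℝ => Y23.TT f (v * Complex.I)) :=
  (Y23.differentiable_TT hf).continuous.comp line_cont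

theorem exp_bd (v : ℝ) : (1 + v ^ 2) * Real.exp (-|v|) ≤ 64 * (1 + v ^ 2)⁻¹ := by
  have h1 : 1 + v ^ 2 ≤ 8 * Real.exp (|v| / 2) := by
    have h2 := Real.quadratic_le_exp_of_nonneg (x := |v| / 2) (by positivity)
    have h3 : |v| ^ 2 = v ^ 2 := sq_abs v
    have h4 : 0 ≤ |v| := abs_nonneg v
    nlinarith
  have h5 : (1 + v ^ 2) ^ 2 ≤ 64 * Real.exp |v| := by
    have h6 : Real.exp |v| = Real.exp (|v| / 2) ^ 2 := by
      rw [← Real.exp_nat_mul]
      congr 1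
      push_cast
      ring
    rw [h6]
    have h7 := pow_le_pow_left₀ (by positivity) h1 2
    nlinarith
  rw [Real.exp_neg]
  have h8 : 0 < 1 + v ^ 2 := by positivity
  have h9 := Real.exp_pos |v|
  rw [← div_eq_mul_inv, ← div_eq_mul_inv, div_le_div_iff₀ h9 h8]
  nlinarith

theorem XX_sq_bd : ∃ C : ℝ, 0 < C ∧ ∀ v : ℝ, (1 + v ^ 2) * ‖XX (v * Complex.I)‖ ^ 2 ≤ C * (1 + v ^ 2)⁻¹ := by
  obtain ⟨C, hC, H⟩ := Y23.Z.XX_decay (φ := 1 / 2) (by norm_num) (by linarith [Real.pi_gt_three])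
  refine ⟨64 * C ^ 2, by positivity, fun v => ?_⟩
  have h1 : ‖XX (v * Complex.I)‖ ^ 2 ≤ C ^ 2 * Real.exp (-|v|) := by
    calc ‖XX (v * Complex.I)‖ ^ 2 ≤ (C * Real.exp (-(1 / 2 * |v|))) ^ 2 :=
          pow_le_pow_left₀ (norm_nonneg _) (H v) 2
      _ = C ^ 2 * Real.exp (-|v|) := by
          rw [mul_pow, ← Real.exp_nat_mul]
          congr 2
          push_cast
          ring
  calc (1 + v ^ 2) * ‖XX (v * Complex.I)‖ ^ 2 ≤ (1 + v ^ 2) * (C ^ 2 * Real.exp (-|v|)) :=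
        mul_le_mul_of_nonneg_left h1 (by positivity)
    _ = C ^ 2 * ((1 + v ^ 2) * Real.exp (-|v|)) := by ring
    _ ≤ C ^ 2 * (64 * (1 + v ^ 2)⁻¹) := mul_le_mul_of_nonneg_left (exp_bd v) (by positivity)
    _ = _ := by ring

theorem wX_cont {h : ℝ} {χ : ℝ → ℂ} (hχ : Sm h χ) : Continuous (wX χ) := by
  unfold wX
  exact ((XX_cont.mul (TT_cont (fa_sm hχ))).norm).pow 2

theorem wX_int {h : ℝ} {χ : ℝ → ℂ} (hχ : Sm h χ) : Integrable (fun v : ℝ => (1 + v ^ 2) * wX χ v) := by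
  obtain ⟨C, hC, H⟩ := XX_sq_bd
  set M : ℝ := ∫ x : ℝ, ‖χ x‖ with hM
  have hM0 : 0 ≤ M := integral_nonneg fun x => norm_nonneg _
  refine (integrable_inv_one_add_sq.const_mul (C * M ^ 2)).mono'
    ((Continuous.mul (by fun_prop) (wX_cont hχ)).aestronglyMeasurable) (Eventually.of_forall fun v => ?_)
  have h0 := wX_nonneg χ v
  rw [Real.norm_of_nonneg (by positivity)]
  have h1 : ‖Y23.TT χ (v * Complex.I)‖ ^ 2 ≤ M ^ 2 := pow_le_pow_left₀ (norm_nonneg _) (TT_bd χ v) 2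
  unfold wX
  rw [norm_mul, mul_pow]
  calc (1 + v ^ 2) * (‖XX (v * Complex.I)‖ ^ 2 * ‖Y23.TT χ (v * Complex.I)‖ ^ 2) =
        ((1 + v ^ 2) * ‖XX (v * Complex.I)‖ ^ 2) * ‖Y23.TT χ (v * Complex.I)‖ ^ 2 := by ring
    _ ≤ (C * (1 + v ^ 2)⁻¹) * M ^ 2 := mul_le_mul (H v) h1 (by positivity) (by positivity)
    _ = C * M ^ 2 * (1 + v ^ 2)⁻¹ := by ring

/-- a weight times a function of quadratic growth is integrable -/
theorem wT_int {w T : ℝ → ℝ} {B : ℝ} (hw0 : ∀ v, 0 ≤ w v) (hwc : Continuous w) (hTc : Continuous T)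
    (hwi : Integrable (fun v => (1 + v ^ 2) * w v)) (hB : ∀ v, |T v| ≤ B * (1 + v ^ 2)) :
    Integrable (fun v => w v * T v) := by
  refine (hwi.const_mul B).mono' (hwc.mul hTc).aestronglyMeasurable (Eventually.of_forall fun v => ?_)
  rw [norm_mul, Real.norm_of_nonneg (hw0 v), Real.norm_eq_abs]
  calc w v * |T v| ≤ w v * (B * (1 + v ^ 2)) := mul_le_mul_of_nonneg_left (hB v) (hw0 v)
    _ = _ := by ring

/-- continuity of the integral in the parameter, for an arbitrary space -/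
theorem G_cont {Q : Type} [TopologicalSpace Q] {T : Q → ℝ → ℝ} (hT : Continuous (fun x : Q × ℝ => T x.1 x.2))
    {B : ℝ} (hB : ∀ q v, |T q v| ≤ B * (1 + v ^ 2)) {w : ℝ → ℝ} (hw0 : ∀ v, 0 ≤ w v) (hwc : Continuous w)
    (hwi : Integrable (fun v => (1 + v ^ 2) * w v)) : Continuous (fun q => ∫ v, w v * T q v) := by
  set S : Set C(ℝ, ℝ) := {τ | ∀ v, |τ v| ≤ B * (1 + v ^ 2)} with hS
  have h1 : Continuous (fun τ : S => ∫ v, w v * τ.1 v) := by
    refine continuous_of_dominated (bound := fun v => B * ((1 + v ^ 2) * w v)) (fun τ => ?_) (fun τ => ?_)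
      (hwi.const_mul B) ?_
    · exact (hwc.mul τ.1.continuous).aestronglyMeasurable
    · refine Eventually.of_forall fun v => ?_
      rw [norm_mul, Real.norm_of_nonneg (hw0 v), Real.norm_eq_abs]
      calc w v * |τ.1 v| ≤ w v * (B * (1 + v ^ 2)) := mul_le_mul_of_nonneg_left (τ.2 v) (hw0 v)
        _ = _ := by ring
    · refine Eventually.of_forall fun v => ?_
      exact continuous_const.mul ((continuous_eval_const v).comp continuous_subtype_val)
  have h2 : Continuous (fun q : Q => (⟨ContinuousMap.curry ⟨fun x : Q × ℝ => T x.1 x.2, hT⟩ q,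
      fun v => hB q v⟩ : S)) := Continuous.subtype_mk (ContinuousMap.continuous _) _
  exact h1.comp h2

/-- the trial functions are close to their limits -/
theorem close {w T : ℝ → ℝ} {B s : ℝ} {f g : ℝ → ℂ} (hs : 0 < s) (hTc : Continuous T)
    (hB : ∀ v, |T v| ≤ B * (1 + v ^ 2)) (hf : Continuous f) (hg : Continuous g) (hw : ∀ v, w v = ‖g v‖ ^ 2)
    (hwi : Integrable (fun v => (1 + v ^ 2) * w v))
    (hd : Integrable (fun v => (1 + v ^ 2) * ‖f v - g v‖ ^ 2)) :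
    Integrable (fun v => ‖f v‖ ^ 2 * T v) ∧
    |(∫ v, ‖f v‖ ^ 2 * T v) - ∫ v, w v * T v| ≤
      B * ((1 + 1 / s) * (∫ v, (1 + v ^ 2) * ‖f v - g v‖ ^ 2) + s * ∫ v, (1 + v ^ 2) * w v) := by
  have hp : ∀ v, |‖f v‖ ^ 2 - w v| ≤ (1 + 1 / s) * ‖f v - g v‖ ^ 2 + s * w v := by
    intro v
    rw [hw]
    set x := ‖f v‖ with hx
    set y := ‖g v‖ with hy
    set d := ‖f v - g v‖ with hdd
    have h1 : |x - y| ≤ d := abs_norm_sub_norm_le _ _
    have h2 : 0 ≤ d := norm_nonneg _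
    have h3 : 0 ≤ x := norm_nonneg _
    have h4 : 0 ≤ y := norm_nonneg _
    have h5 : x + y ≤ d + 2 * y := by linarith [(abs_le.1 h1).2]
    have h6 : |x ^ 2 - y ^ 2| = |x - y| * (x + y) := by
      rw [sq_sub_sq, abs_mul, abs_of_nonneg (by linarith : 0 ≤ x + y)]
      ring
    rw [h6]
    have h7 : |x - y| * (x + y) ≤ d * (d + 2 * y) := mul_le_mul h1 h5 (by linarith) h2
    have h8 : 2 * (d * y) ≤ 1 / s * d ^ 2 + s * y ^ 2 := by
      have h9 : 0 ≤ (d - s * y) ^ 2 / s := by positivity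
      have h10 : (d - s * y) ^ 2 / s = 1 / s * d ^ 2 + s * y ^ 2 - 2 * (d * y) := by
        field_simp
        ring
      linarith
    nlinarith
  have hdi : Integrable (fun v => (‖f v‖ ^ 2 - w v) * T v) := by
    have hwc : Continuous w := by
      have : w = fun v => ‖g v‖ ^ 2 := funext hw
      rw [this]
      exact hg.norm.pow 2
    refine (((hd.const_mul (1 + 1 / s)).add (hwi.const_mul s)).const_mul B).mono'
      (((hf.norm.pow 2).sub hwc).mul hTc).aestronglyMeasurable (Eventually.of_forall fun v => ?_)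
    rw [norm_mul, Real.norm_eq_abs, Real.norm_eq_abs]
    simp only [Pi.add_apply]
    have h0 : 0 ≤ w v := by rw [hw]; positivity
    calc |‖f v‖ ^ 2 - w v| * |T v| ≤ ((1 + 1 / s) * ‖f v - g v‖ ^ 2 + s * w v) * (B * (1 + v ^ 2)) :=
          mul_le_mul (hp v) (hB v) (abs_nonneg _) (by positivity)
      _ = _ := by ring
  have hwT : Integrable (fun v => w v * T v) := by
    have hwc : Continuous w := by
      have : w = fun v => ‖g v‖ ^ 2 := funext hw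
      rw [this]
      exact hg.norm.pow 2
    exact wT_int (fun v => by rw [hw]; positivity) hwc hTc hwi hB
  have hfT : Integrable (fun v => ‖f v‖ ^ 2 * T v) := by
    refine (hdi.add hwT).congr (Eventually.of_forall fun v => ?_)
    simp only [Pi.add_apply]
    ring
  refine ⟨hfT, ?_⟩
  rw [← integral_sub hfT hwT, ← Real.norm_eq_abs]
  have h1 : ‖∫ v, (‖f v‖ ^ 2 * T v - w v * T v)‖ ≤ ∫ v, B * ((1 + 1 / s) * ((1 + v ^ 2) * ‖f v - g v‖ ^ 2) +
      s * ((1 + v ^ 2) * w v)) := by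
    refine norm_integral_le_of_norm_le (((hd.const_mul (1 + 1 / s)).add (hwi.const_mul s)).const_mul B)
      (Eventually.of_forall fun v => ?_)
    rw [← sub_mul, norm_mul, Real.norm_eq_abs, Real.norm_eq_abs]
    have h0 : 0 ≤ w v := by rw [hw]; positivity
    calc |‖f v‖ ^ 2 - w v| * |T v| ≤ ((1 + 1 / s) * ‖f v - g v‖ ^ 2 + s * w v) * (B * (1 + v ^ 2)) :=
          mul_le_mul (hp v) (hB v) (abs_nonneg _) (by positivity)
      _ = _ := by ring
  refine h1.trans (le_of_eq ?_)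
  rw [integral_const_mul, integral_add (hd.const_mul _) (hwi.const_mul _), integral_const_mul, integral_const_mul]

theorem key (hTr : S_TrX) (hDet : S_Det) : S_Key := by
  intro c hc
  obtain ⟨h, C, hh, hC, hF⟩ := hTr c hc
  refine ⟨C, hC, fun Q _ _ T hT hB hpos => ?_⟩
  obtain ⟨B', hB'⟩ := hB
  obtain ⟨B, hB0, hB⟩ : ∃ B : ℝ, 0 < B ∧ ∀ q v, |T q v| ≤ B * (1 + v ^ 2) := by
    refine ⟨max B' 1, by positivity, fun q v => (hB' q v).trans ?_⟩
    exact mul_le_mul_of_nonneg_right (le_max_left _ _) (by positivity)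
  have hTq : ∀ q, Continuous (T q) := fun q => hT.comp (by fun_prop : Continuous fun v : ℝ => (q, v))
  have h1 : ∀ q : Q, ∃ χ : ℝ → ℂ, Sm h χ ∧ 0 < ∫ v : ℝ, wX χ v * T q v := fun q =>
    hDet h (T q) hh (hTq q) ⟨B, hB q⟩ (hpos q)
  choose χ hχ hχp using h1
  have hG : ∀ q0 : Q, Continuous (fun q => ∫ v : ℝ, wX (χ q0) v * T q v) := fun q0 =>
    G_cont hT hB (wX_nonneg _) (wX_cont (hχ q0)) (wX_int (hχ q0))
  obtain ⟨t, ht⟩ := CompactSpace.elim_nhds_subcover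
    (fun q0 : Q => {q : Q | (∫ v : ℝ, wX (χ q0) v * T q0 v) / 2 < ∫ v : ℝ, wX (χ q0) v * T q v})
    (fun q0 => ((hG q0).isOpen_preimage _ isOpen_Ioi).mem_nhds (by
      have := hχp q0
      show (∫ v : ℝ, wX (χ q0) v * T q0 v) / 2 < ∫ v : ℝ, wX (χ q0) v * T q0 v
      linarith))
  -- the trial functions
  have h2 : ∀ q0 : Q, ∀ᶠ p in Lx C, ∀ q : Q, (∫ v : ℝ, wX (χ q0) v * T q0 v) / 2 < ∫ v : ℝ, wX (χ q0) v * T q v →
      ∃ f : ℝ → ℂ, Y23.G.F.Hn p.1 (p.2 : ℕ∞) f ∧ |Y23.QQ f| ≤ Real.exp (-(c * Real.exp (2 * p.1))) ∧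
        (∫ v : ℝ, wX (χ q0) v * T q0 v) / 4 ≤ ∫ v : ℝ, ‖Y23.TT f (v * Complex.I)‖ ^ 2 * T q v := by
    intro q0
    obtain ⟨F, hF1, hF2⟩ := hF (χ q0) (hχ q0)
    set d : ℝ := ∫ v : ℝ, wX (χ q0) v * T q0 v with hd
    have hd0 : 0 < d := hχp q0
    set W : ℝ := ∫ v : ℝ, (1 + v ^ 2) * wX (χ q0) v with hW
    have hW0 : 0 ≤ W := integral_nonneg fun v => mul_nonneg (by positivity) (wX_nonneg _ _)
    obtain ⟨s, hs, hsW⟩ : ∃ s : ℝ, 0 < s ∧ B * (s * W) ≤ d / 8 := by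
      refine ⟨d / (8 * B * (W + 1)), by positivity, ?_⟩
      have e1 : B * (d / (8 * B * (W + 1)) * W) = d / 8 * (W / (W + 1)) := by
        field_simp
      rw [e1]
      refine mul_le_of_le_one_right (by positivity) ?_
      rw [div_le_one (by positivity)]
      linarith
    have h3 : ∀ᶠ p in Lx C, (∫ v : ℝ, (1 + v ^ 2) * ‖Y23.TT (F p) (v * Complex.I) -
        XX (v * Complex.I) * Y23.TT (χ q0) (v * Complex.I)‖ ^ 2) < d / (8 * B * (1 + 1 / s)) :=
      hF2.eventually_lt_const (by positivity)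
    filter_upwards [hF1, h3] with p hp1 hp2 q hq
    obtain ⟨hHn, hQQ, hint⟩ := hp1
    refine ⟨F p, hHn, hQQ, ?_⟩
    have hcl := (close (w := wX (χ q0)) (T := T q) (B := B) (s := s)
      (f := fun v : ℝ => Y23.TT (F p) (v * Complex.I))
      (g := fun v : ℝ => XX (v * Complex.I) * Y23.TT (χ q0) (v * Complex.I)) hs (hTq q) (hB q)
      (TT_cont hHn.1) (XX_cont.mul (TT_cont (fa_sm (hχ q0)))) (fun v => rfl) (wX_int (hχ q0)) hint).2
    have h4 := (abs_le.1 hcl).1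
    have h5 : B * ((1 + 1 / s) * ∫ v : ℝ, (1 + v ^ 2) * ‖Y23.TT (F p) (v * Complex.I) -
        XX (v * Complex.I) * Y23.TT (χ q0) (v * Complex.I)‖ ^ 2) ≤ d / 8 := by
      rw [lt_div_iff₀ (by positivity)] at hp2
      have : B * ((1 + 1 / s) * ∫ v : ℝ, (1 + v ^ 2) * ‖Y23.TT (F p) (v * Complex.I) -
        XX (v * Complex.I) * Y23.TT (χ q0) (v * Complex.I)‖ ^ 2) = (∫ v : ℝ, (1 + v ^ 2) * ‖Y23.TT (F p) (v * Complex.I) -
        XX (v * Complex.I) * Y23.TT (χ q0) (v * Complex.I)‖ ^ 2) * (8 * B * (1 + 1 / s)) / 8 := by ring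
      rw [this]
      linarith
    rw [mul_add] at h4
    linarith
  obtain ⟨c0, hc0, hc0t⟩ : ∃ c0 : ℝ, 0 < c0 ∧ ∀ q0 ∈ t, c0 ≤ (∫ v : ℝ, wX (χ q0) v * T q0 v) / 4 := by
    classical
    have : ∀ t : Finset Q, ∃ c0 : ℝ, 0 < c0 ∧ ∀ q0 ∈ t, c0 ≤ (∫ v : ℝ, wX (χ q0) v * T q0 v) / 4 := by
      intro t
      induction t using Finset.induction with
      | empty => exact ⟨1, one_pos, fun q0 h => absurd h (Finset.notMem_empty _)⟩
      | insert a t _ ih =>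
        obtain ⟨c1, hc1, hc2⟩ := ih
        have := hχp a
        refine ⟨min c1 ((∫ v : ℝ, wX (χ a) v * T a v) / 4), by positivity, fun q0 hq => ?_⟩
        rcases Finset.mem_insert.1 hq with h | h
        · rw [h]
          exact min_le_right _ _
        · exact (min_le_left _ _).trans (hc2 q0 h)
    exact this t
  refine ⟨c0, hc0, ?_⟩
  have h3 : ∀ᶠ p in Lx C, ∀ q0 ∈ t, ∀ q : Q, (∫ v : ℝ, wX (χ q0) v * T q0 v) / 2 < ∫ v : ℝ, wX (χ q0) v * T q v →
      ∃ f : ℝ → ℂ, Y23.G.F.Hn p.1 (p.2 : ℕ∞) f ∧ |Y23.QQ f| ≤ Real.exp (-(c * Real.exp (2 * p.1))) ∧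
        (∫ v : ℝ, wX (χ q0) v * T q0 v) / 4 ≤ ∫ v : ℝ, ‖Y23.TT f (v * Complex.I)‖ ^ 2 * T q v :=
    (Filter.eventually_all_finset t).2 fun q0 _ => h2 q0
  filter_upwards [h3] with p hp q
  have hq : q ∈ ⋃ x ∈ t, {q : Q | (∫ v : ℝ, wX (χ x) v * T x v) / 2 < ∫ v : ℝ, wX (χ x) v * T q v} := by
    rw [ht]
    trivial
  obtain ⟨q0, hq0, hqq⟩ := Set.mem_iUnion₂.1 hq
  obtain ⟨f, hf1, hf2, hf3⟩ := hp q0 hq0 q hqq
  exact ⟨f, hf1, hf2, (hc0t q0 hq0).trans hf3⟩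

end Pool.Agent.Q211.PR
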