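import Pool.Agent.Q211.PR.Key

set_option autoImplicit false

/-!
# Project PR: smooth functions of small support whose transforms approximate a polynomial
-/

open Polynomial Filter Topology Finset MeasureTheory
open Pool.Agent.H24R2.JP (XX)
open Pool.Agent.Q240.PR

namespace Pool.Agent.Q211.PR

/-- smooth with support in `[-r, r]` -/
def Sp (r : ℝ) (χ : ℝ → ℂ) : Prop := (∀ k : ℕ, ContDiff ℝ k χ) ∧ tsupport χ ⊆ Set.Icc (-r) r

theorem Sp.sm {r h : ℝ} (hr : r < h) {χ : ℝ → ℂ} (hχ : Sp r χ) : Sm h χ := by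
  refine ⟨hχ.1, fun x hx => ?_⟩
  by_contra hne
  have h1 : x ∈ tsupport χ := subset_tsupport _ (Function.mem_support.2 hne)
  have h2 := hχ.2 h1
  have h3 : |x| ≤ r := abs_le.2 ⟨h2.1, h2.2⟩
  linarith

theorem Sp.hcs {r : ℝ} {χ : ℝ → ℂ} (hχ : Sp r χ) : HasCompactSupport χ :=
  HasCompactSupport.of_support_subset_isCompact isCompact_Icc ((subset_tsupport _).trans hχ.2)

theorem Sp.int {r : ℝ} {χ : ℝ → ℂ} (hχ : Sp r χ) : Integrable χ :=
  (hχ.1 0).continuous.integrable_of_hasCompactSupport hχ.hcs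

theorem Sp.add {r : ℝ} {χ₁ χ₂ : ℝ → ℂ} (h1 : Sp r χ₁) (h2 : Sp r χ₂) : Sp r (fun x => χ₁ x + χ₂ x) := by
  refine ⟨fun k => (h1.1 k).add (h2.1 k), ?_⟩
  exact (tsupport_add χ₁ χ₂).trans (Set.union_subset h1.2 h2.2)

theorem Sp.smul {r : ℝ} {χ : ℝ → ℂ} (h1 : Sp r χ) (c : ℂ) : Sp r (fun x => c * χ x) := by
  refine ⟨fun k => contDiff_const.mul (h1.1 k), ?_⟩
  exact (tsupport_mul_subset_right (f := fun _ : ℝ => c) (g := χ)).trans h1.2

theorem Sp.deriv {r : ℝ} {χ : ℝ → ℂ} (h1 : Sp r χ) : Sp r (deriv χ) := by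
  refine ⟨fun k => ?_, ?_⟩
  · have h2 := h1.1 (k + 1)
    have h3 : ContDiff ℝ ((k : WithTop ℕ∞) + 1) χ := by exact_mod_cast h2
    exact (contDiff_succ_iff_deriv.1 h3).2.2
  · have h2 : tsupport (_root_.deriv χ) ⊆ tsupport χ :=
      closure_minimal support_deriv_subset (isClosed_tsupport χ)
    exact h2.trans h1.2

theorem cexp_norm (v x : ℝ) : ‖Complex.exp ((v : ℂ) * Complex.I * x)‖ = 1 := by
  rw [Complex.norm_exp]
  simp

theorem Sp.int_exp {r : ℝ} {χ : ℝ → ℂ} (h1 : Sp r χ) (v : ℝ) :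
    Integrable (fun x : ℝ => χ x * Complex.exp ((v : ℂ) * Complex.I * x)) := by
  refine h1.int.mul_bdd (c := 1) (Continuous.aestronglyMeasurable (by fun_prop)) (Eventually.of_forall fun x => ?_)
  rw [cexp_norm]

theorem Sp.TT_add {r : ℝ} {χ₁ χ₂ : ℝ → ℂ} (h1 : Sp r χ₁) (h2 : Sp r χ₂) (v : ℝ) :
    Y23.TT (fun x => χ₁ x + χ₂ x) (v * Complex.I) = Y23.TT χ₁ (v * Complex.I) + Y23.TT χ₂ (v * Complex.I) := by
  unfold Y23.TT
  rw [← integral_add (h1.int_exp v) (h2.int_exp v)]
  refine integral_congr_ae (Eventually.of_forall fun x => ?_)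
  simp only
  ring

theorem TT_cmul (χ : ℝ → ℂ) (c : ℂ) (v : ℝ) :
    Y23.TT (fun x => c * χ x) (v * Complex.I) = c * Y23.TT χ (v * Complex.I) := by
  unfold Y23.TT
  rw [← integral_const_mul]
  refine integral_congr_ae (Eventually.of_forall fun x => ?_)
  simp only
  ring

theorem Sp.TT_deriv {r : ℝ} {χ : ℝ → ℂ} (h1 : Sp r χ) (v : ℝ) :
    Y23.TT (_root_.deriv χ) (v * Complex.I) = -(v * Complex.I) * Y23.TT χ (v * Complex.I) := by
  have hd : ∀ x : ℝ, HasDerivAt χ (_root_.deriv χ x) x := fun x =>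
    ((h1.1 1).differentiable (by norm_num) x).hasDerivAt
  have he : ∀ x : ℝ, HasDerivAt (fun x : ℝ => Complex.exp ((v : ℂ) * Complex.I * x))
      ((v : ℂ) * Complex.I * Complex.exp ((v : ℂ) * Complex.I * x)) x := by
    intro x
    have h2 : HasDerivAt (fun x : ℝ => (v : ℂ) * Complex.I * (x : ℂ)) ((v : ℂ) * Complex.I) x := by
      have := (Complex.ofRealCLM.hasDerivAt (x := x)).const_mul ((v : ℂ) * Complex.I)
      simpa using this
    have h3 := h2.cexp
    refine h3.congr_deriv ?_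
    ring
  have h4 := integral_mul_deriv_eq_deriv_mul_of_integrable
    (u := fun x : ℝ => Complex.exp ((v : ℂ) * Complex.I * x)) (v := χ)
    (u' := fun x : ℝ => (v : ℂ) * Complex.I * Complex.exp ((v : ℂ) * Complex.I * x)) (v' := _root_.deriv χ)
    (fun x _ => he x) (fun x _ => hd x)
    ((h1.deriv.int_exp v).congr (Eventually.of_forall fun x => by simp only [Pi.mul_apply]; ring))
    (((h1.int_exp v).const_mul ((v : ℂ) * Complex.I)).congr (Eventually.of_forall fun x => by
      simp only [Pi.mul_apply]; ring))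
    ((h1.int_exp v).congr (Eventually.of_forall fun x => by simp only [Pi.mul_apply]; ring))
  unfold Y23.TT
  rw [← integral_const_mul]
  calc ∫ x : ℝ, _root_.deriv χ x * Complex.exp ((v : ℂ) * Complex.I * x) =
        ∫ x : ℝ, Complex.exp ((v : ℂ) * Complex.I * x) * _root_.deriv χ x := by
        refine integral_congr_ae (Eventually.of_forall fun x => ?_)
        simp only
        ring
    _ = -∫ x : ℝ, (v : ℂ) * Complex.I * Complex.exp ((v : ℂ) * Complex.I * x) * χ x := h4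
    _ = _ := by
        rw [← integral_neg]
        refine integral_congr_ae (Eventually.of_forall fun x => ?_)
        simp only
        ring

/-- multiplication of the transform by a polynomial -/
theorem Sp.poly {r : ℝ} (P : ℝ[X]) : ∀ ψ : ℝ → ℂ, Sp r ψ → ∃ χ : ℝ → ℂ, Sp r χ ∧
    ∀ v : ℝ, Y23.TT χ (v * Complex.I) = P.eval v * Y23.TT ψ (v * Complex.I) := by
  induction P using Polynomial.induction_on with
  | C a =>
    intro ψ hψ
    refine ⟨fun x => (a : ℂ) * ψ x, hψ.smul _, fun v => ?_⟩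
    rw [TT_cmul, eval_C]
  | add p q hp hq =>
    intro ψ hψ
    obtain ⟨χ₁, h1, h2⟩ := hp ψ hψ
    obtain ⟨χ₂, h3, h4⟩ := hq ψ hψ
    refine ⟨fun x => χ₁ x + χ₂ x, h1.add h3, fun v => ?_⟩
    rw [h1.TT_add h3, h2, h4, eval_add]
    push_cast
    ring
  | monomial n a h =>
    intro ψ hψ
    obtain ⟨χ, h1, h2⟩ := h ψ hψ
    refine ⟨fun x => Complex.I * _root_.deriv χ x, h1.deriv.smul _, fun v => ?_⟩
    rw [TT_cmul, h1.TT_deriv, h2]
    have h3 : (C a * X ^ (n + 1) : ℝ[X]).eval v = v * (C a * X ^ n : ℝ[X]).eval v := by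
      simp only [eval_mul, eval_C, eval_pow, eval_X]
      ring
    rw [h3]
    generalize (C a * X ^ n : ℝ[X]).eval v = e
    push_cast
    linear_combination -(v : ℂ) * (e : ℂ) * Y23.TT ψ (v * Complex.I) * Complex.I_sq

/-- an approximation of the identity -/
theorem moll {h : ℝ} (hh : 0 < h) : ∃ ψ : ℕ → ℝ → ℂ, (∀ n, Sp (h / 2) (ψ n)) ∧
    (∀ n (v : ℝ), ‖Y23.TT (ψ n) (v * Complex.I)‖ ≤ 1) ∧
    ∀ v : ℝ, Tendsto (fun n => Y23.TT (ψ n) (v * Complex.I)) atTop (𝓝 1) := by
  set f : ℕ → ContDiffBump (0 : ℝ) := fun n =>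
    ⟨h / 4 / (n + 1), h / 2 / (n + 1), by positivity, by
      refine div_lt_div_of_pos_right ?_ (by positivity)
      linarith⟩ with hf
  have hout : ∀ n, (f n).rOut = h / 2 / (n + 1) := fun n => rfl
  have hle : ∀ n, (f n).rOut ≤ h / 2 := fun n => by
    rw [hout]
    refine div_le_self (by positivity) ?_
    have : (0 : ℝ) ≤ n := Nat.cast_nonneg n
    linarith
  set ψ : ℕ → ℝ → ℂ := fun n x => (((f n).normed volume x : ℝ) : ℂ) with hψ
  have hts : ∀ n, tsupport (ψ n) ⊆ Metric.closedBall (0 : ℝ) (f n).rOut := by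
    intro n
    have h1 : tsupport (ψ n) ⊆ tsupport ((f n).normed volume) := by
      refine closure_mono fun x hx => ?_
      rw [Function.mem_support] at hx ⊢
      intro h2
      apply hx
      simp only [hψ]
      rw [h2]
      simp
    rw [(f n).tsupport_normed_eq] at h1
    exact h1
  have hsp : ∀ n, Sp (h / 2) (ψ n) := by
    intro n
    refine ⟨fun k => ?_, (hts n).trans ?_⟩
    · exact Complex.ofRealCLM.contDiff.comp (f n).contDiff_normed
    · rw [Real.closedBall_eq_Icc]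
      exact Set.Icc_subset_Icc (by linarith [hle n]) (by linarith [hle n])
  have hnn : ∀ n x, ‖ψ n x‖ = (f n).normed volume x := fun n x => by
    simp only [hψ]
    rw [Complex.norm_real, Real.norm_of_nonneg ((f n).nonneg_normed x)]
  have hint : ∀ n, ∫ x, ‖ψ n x‖ = 1 := fun n => by
    simp only [hnn]
    exact (f n).integral_normed
  have hint2 : ∀ n, ∫ x, ψ n x = 1 := fun n => by
    simp only [hψ]
    rw [integral_complex_ofReal, (f n).integral_normed]
    simp
  refine ⟨ψ, hsp, fun n v => (TT_bd (ψ n) v).trans (hint n).le, fun v => ?_⟩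
  rw [tendsto_iff_norm_sub_tendsto_zero]
  have hb : ∀ n, ‖Y23.TT (ψ n) (v * Complex.I) - 1‖ ≤ |v| * (h / 2 / (n + 1)) := by
    intro n
    unfold Y23.TT
    rw [← hint2 n, ← integral_sub ((hsp n).int_exp v) (hsp n).int]
    have h1 : |v| * (h / 2 / (n + 1)) = ∫ x, ‖ψ n x‖ * (|v| * (h / 2 / (n + 1))) := by
      rw [integral_mul_const, hint n, one_mul]
    rw [h1]
    refine norm_integral_le_of_norm_le ((hsp n).int.norm.mul_const _) (Eventually.of_forall fun x => ?_)
    have h2 : ψ n x * Complex.exp ((v : ℂ) * Complex.I * x) - ψ n x =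
        ψ n x * (Complex.exp (Complex.I * ((v * x : ℝ) : ℂ)) - 1) := by
      push_cast
      rw [show (v : ℂ) * Complex.I * x = Complex.I * (v * x) by ring]
      ring
    rw [h2, norm_mul]
    by_cases hx : ψ n x = 0
    · rw [hx]
      simp
    · have h3 : x ∈ Metric.closedBall (0 : ℝ) (f n).rOut :=
        hts n (subset_tsupport _ (Function.mem_support.2 hx))
      rw [mem_closedBall_zero_iff, hout] at h3
      refine mul_le_mul_of_nonneg_left ?_ (norm_nonneg _)
      refine Real.norm_exp_I_mul_ofReal_sub_one_le.trans ?_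
      rw [norm_mul, Real.norm_eq_abs v]
      exact mul_le_mul_of_nonneg_left h3 (abs_nonneg _)
  have hlim : Tendsto (fun n : ℕ => |v| * (h / 2 / ((n : ℝ) + 1))) atTop (𝓝 0) := by
    have h1 : Tendsto (fun n : ℕ => 1 / ((n : ℝ) + 1)) atTop (𝓝 0) := tendsto_one_div_add_atTop_nhds_zero_nat
    have h2 := h1.const_mul (|v| * (h / 2))
    rw [mul_zero] at h2
    refine h2.congr fun n => ?_
    ring
  exact squeeze_zero (fun n => norm_nonneg _) hb hlim

end Pool.Agent.Q211.PR
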